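import Pool.Agent.Helper53.WR.TowDefs

/-!
# Project WR2: counting the exceptional blocks of a tower of worlds
-/

set_option autoImplicit false

namespace Pool.Agent.Helper63.WR2

open Finset Pool.Agent.Helper53.WR

lemma exists_index (g : ℕ → ℕ) (j N : ℕ) (h0 : g 0 ≤ j) (hN : j < g N) :
    ∃ k, k < N ∧ g k ≤ j ∧ j < g (k + 1) := by
  induction N with
  | zero => omega
  | succ N ih =>
    by_cases h : j < g N
    · obtain ⟨k, h1, h2, h3⟩ := ih h
      exact ⟨k, by omega, h2, h3⟩
    · exact ⟨N, by omega, by omega, hN⟩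

open Classical in
/-- The bad blocks of `T` below `2 ^ L`. -/
noncomputable def badSet (T : Set ℕ) (L : ℕ) : Finset ℕ :=
  (range L).filter (fun j => ¬ CovBlock T j)

lemma badSet_card (T : Set ℕ) (L : ℕ) : (badSet T L).card = badCount T L := rfl

/-- The possibly bad blocks of world `k`. -/
noncomputable def worldBad (a u e : ℕ → ℕ) (T : ℕ → Finset ℕ) (k : ℕ) : Finset ℕ :=
  Ico (4 * a k + laT u k) (4 * a (k + 1) + thT u e (k + 1) + 8) ∪
    (range 6 ×ˢ badSet (T k : Set ℕ) (laT u k)).image (fun x => 4 * a k + x.1 + x.2)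

theorem bad_bound {a u e t κ f : ℕ → ℕ} (h : Tow a u e t κ f) (T : ℕ → Finset ℕ) (A : Set ℕ)
    (B : ℕ → ℕ) (hB : ∀ k, badCount (T k : Set ℕ) (laT u k) ≤ B k)
    (hcov : ∀ k j, 4 * a k + thT u e k + 8 ≤ j → j + 1 ≤ 4 * a k + laT u k →
        (∀ i, i ≤ 5 → CovBlock (T k : Set ℕ) (j - 4 * a k - i)) → CovBlock A j)
    (J N : ℕ) (hN : J ≤ 4 * a N) :
    badCount A J ≤ (4 * a 0 + thT u e 0 + 8)
      + ∑ k ∈ range N, (64 * e (k + 1) + 13 + 6 * B k) := by
  classical
  have hsub : badSet A J ⊆ range (4 * a 0 + thT u e 0 + 8) ∪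
      (range N).biUnion (worldBad a u e T) := by
    intro j hj
    rw [badSet, mem_filter, mem_range] at hj
    obtain ⟨hjJ, hbad⟩ := hj
    rw [mem_union, mem_range, mem_biUnion]
    by_cases h0 : j < 4 * a 0 + thT u e 0 + 8
    · exact Or.inl h0
    · right
      obtain ⟨k, hk, h1, h2⟩ := exists_index (fun k => 4 * a k + thT u e k + 8) j N
        (by omega) (by omega)
      refine ⟨k, mem_range.2 hk, ?_⟩
      rw [worldBad, mem_union]
      by_cases h3 : j + 1 ≤ 4 * a k + laT u k
      · right
        have h4 : ¬ ∀ i, i ≤ 5 → CovBlock (T k : Set ℕ) (j - 4 * a k - i) := fun h5 =>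
          hbad (hcov k j h1 h3 h5)
        push Not at h4
        obtain ⟨i, hi, h5⟩ := h4
        rw [mem_image]
        refine ⟨(i, j - 4 * a k - i), ?_, ?_⟩
        · rw [mem_product, mem_range]
          refine ⟨by simp only; omega, ?_⟩
          rw [badSet, mem_filter, mem_range]
          refine ⟨?_, h5⟩
          simp only
          omega
        · omega
      · left
        rw [mem_Ico]
        omega
  have hcard : ∀ k, (worldBad a u e T k).card ≤ 64 * e (k + 1) + 13 + 6 * B k := by
    intro k
    have h1 : (Ico (4 * a k + laT u k) (4 * a (k + 1) + thT u e (k + 1) + 8)).card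
        ≤ 64 * e (k + 1) + 13 := by
      rw [Nat.card_Ico, h.step k]
      unfold laT thT
      omega
    have h2 : ((range 6 ×ˢ badSet (T k : Set ℕ) (laT u k)).image
        (fun x => 4 * a k + x.1 + x.2)).card ≤ 6 * B k := by
      refine card_image_le.trans ?_
      rw [card_product, card_range, badSet_card]
      exact Nat.mul_le_mul_left 6 (hB k)
    exact (card_union_le _ _).trans (add_le_add h1 h2)
  calc badCount A J = (badSet A J).card := rfl
    _ ≤ _ := card_le_card hsub
    _ ≤ (range (4 * a 0 + thT u e 0 + 8)).card + ((range N).biUnion (worldBad a u e T)).card :=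
        card_union_le _ _
    _ ≤ (4 * a 0 + thT u e 0 + 8) + ∑ k ∈ range N, (64 * e (k + 1) + 13 + 6 * B k) := by
        rw [card_range]
        apply Nat.add_le_add_left
        exact card_biUnion_le.trans (sum_le_sum fun k _ => hcard k)

end Pool.Agent.Helper63.WR2
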