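import Pool.Agent.Helper63.WR2.Seq
import Pool.Agent.Helper63.WR2.Bad

/-!
# Project WR2: the infinite theorem from the statements of `tower` and `finite_thm`
-/

set_option autoImplicit false

namespace Pool.Agent.Helper63.WR2

open Filter Finset Pool.Agent.Helper53.WR

variable {p ρ : ℝ} {c s0 a0 : ℕ}

lemma laT_le (H : ∀ a, a0 ≤ a → Cond p c s0 a) (hp1 : p ≤ 1) (k : ℕ) :
    laT (uS a0) k ≤ aS a0 k := by
  have h1 := (facts H hp1 k).2.1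
  have h2 := (facts H hp1 k).2.2.1
  unfold laT
  omega

lemma two_pow_sS (H : ∀ a, a0 ≤ a → Cond p c s0 a) (k : ℕ) :
    (2 : ℝ) ^ sS a0 k ≤ 2 * w (aS a0 k) := by
  have hpos := (H (aS a0 k) (a0_le a0 k)).pos
  have h1 := two_pow_sqrt_le (a := aS a0 k) (by omega)
  unfold sS
  rw [pow_succ]
  linarith

lemma one_le_rpow (H : ∀ a, a0 ≤ a → Cond p c s0 a) (hρ0 : 0 ≤ ρ) (k : ℕ) :
    (1 : ℝ) ≤ ((aS a0 k : ℕ) : ℝ) ^ ρ := by
  have hpos := (H (aS a0 k) (a0_le a0 k)).pos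
  exact Real.one_le_rpow (by exact_mod_cast hpos) hρ0

lemma fS_le (H : ∀ a, a0 ≤ a → Cond p c s0 a) (hρ0 : 0 ≤ ρ) (k : ℕ) :
    (fS ρ c a0 k : ℝ) ≤ 2 ^ (2 * c + 6) * (((aS a0 k : ℕ) : ℝ) ^ ρ * w (aS a0 k) ^ (2 * c + 5)) := by
  have h1 := one_le_rpow H hρ0 k
  have h2 := two_pow_sS H k
  have h3 : (⌈((aS a0 k : ℕ) : ℝ) ^ ρ⌉₊ : ℝ) ≤ 2 * ((aS a0 k : ℕ) : ℝ) ^ ρ := by
    have := (Nat.ceil_lt_add_one (by linarith : 0 ≤ ((aS a0 k : ℕ) : ℝ) ^ ρ)).le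
    linarith
  have h4 : (fS ρ c a0 k : ℝ)
      = (⌈((aS a0 k : ℕ) : ℝ) ^ ρ⌉₊ : ℝ) * ((2 : ℝ) ^ sS a0 k) ^ (2 * c + 5) := by
    unfold fS RS
    push_cast
    rw [← pow_mul, mul_assoc, ← pow_add]
    congr 2
    ring
  rw [h4]
  calc (⌈((aS a0 k : ℕ) : ℝ) ^ ρ⌉₊ : ℝ) * ((2 : ℝ) ^ sS a0 k) ^ (2 * c + 5)
      ≤ (2 * ((aS a0 k : ℕ) : ℝ) ^ ρ) * (2 * w (aS a0 k)) ^ (2 * c + 5) := by
        apply mul_le_mul h3 (pow_le_pow_left₀ (by positivity) h2 _) (by positivity) (by linarith)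
    _ = 2 ^ (2 * c + 6) * (((aS a0 k : ℕ) : ℝ) ^ ρ * w (aS a0 k) ^ (2 * c + 5)) := by
        rw [mul_pow]
        ring

lemma tS_le (H : ∀ a, a0 ≤ a → Cond (1 - ρ) c s0 a) (hρ0 : 0 ≤ ρ) (k : ℕ) :
    (tS (1 - ρ) a0 k : ℝ) ≤ 2 * (((aS a0 k : ℕ) : ℝ) ^ ρ * w (aS a0 k) ^ 4) := by
  have h1 := one_le_rpow H hρ0 k
  have hc := H (aS a0 k) (a0_le a0 k)
  have hx0 : (0 : ℝ) < ((aS a0 k : ℕ) : ℝ) := by exact_mod_cast hc.pos
  have hw1 := one_le_w (aS a0 k)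
  have hw4 : 1 ≤ w (aS a0 k) ^ 4 := one_le_pow₀ hw1
  have hPhi0 : 0 < Phi (1 - ρ) (aS a0 k) := by linarith [hc.hPhi]
  have he : Phi (1 - ρ) (aS a0 k) ≤ (eS (1 - ρ) a0 k : ℝ) := Nat.le_ceil _
  have h2 : ((aS a0 k / eS (1 - ρ) a0 k : ℕ) : ℝ) ≤ ((aS a0 k : ℕ) : ℝ) ^ ρ * w (aS a0 k) ^ 4 := by
    refine (Nat.cast_div_le).trans ?_
    calc ((aS a0 k : ℕ) : ℝ) / (eS (1 - ρ) a0 k : ℝ)
        ≤ ((aS a0 k : ℕ) : ℝ) / Phi (1 - ρ) (aS a0 k) :=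
          div_le_div_of_nonneg_left hx0.le hPhi0 he
      _ = ((aS a0 k : ℕ) : ℝ) ^ ρ * w (aS a0 k) ^ 4 := by
          unfold Phi
          rw [div_div_eq_mul_div, div_eq_iff (Real.rpow_pos_of_pos hx0 _).ne']
          have h3 : ((aS a0 k : ℕ) : ℝ) = ((aS a0 k : ℕ) : ℝ) ^ ρ * ((aS a0 k : ℕ) : ℝ) ^ (1 - ρ) := by
            rw [← Real.rpow_add hx0]
            norm_num
          calc ((aS a0 k : ℕ) : ℝ) * w (aS a0 k) ^ 4
              = (((aS a0 k : ℕ) : ℝ) ^ ρ * ((aS a0 k : ℕ) : ℝ) ^ (1 - ρ)) * w (aS a0 k) ^ 4 := by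
                rw [← h3]
            _ = _ := by ring
  unfold tS
  push_cast
  nlinarith

lemma kS_le (k : ℕ) :
    (kS a0 k : ℝ) ≤ 5 * w (aS a0 k) := by
  have h1 := (Nat.ceil_lt_add_one (by linarith [w_pos (aS a0 k)] : 0 ≤ 4 * w (aS a0 k))).le
  have h2 := one_le_w (aS a0 k)
  have h3 : (kS a0 k : ℝ) = (⌈4 * w (aS a0 k)⌉₊ : ℝ) := rfl
  rw [h3]
  linarith

lemma index_le {t e f : ℕ → ℕ} (H : ∀ a, a0 ≤ a → Cond p c s0 a)
    (tw : Tow (aS a0) (uS a0) e t (kS a0) f) (k : ℕ) :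
    (k : ℝ) ≤ 5 * (w (aS a0 k) * Real.log (aS a0 k)) := by
  have hpos := (H (aS a0 k) (a0_le a0 k)).pos
  have hpos0 : 1 ≤ aS a0 0 := (H (aS a0 0) (a0_le a0 0)).pos
  have h1 := count tw hpos0 k
  have h2 := kS_le (a0 := a0) k
  have h3 : 0 ≤ Real.log (aS a0 0) := Real.log_nonneg (by exact_mod_cast hpos0)
  have h4 : 0 ≤ Real.log (aS a0 k) := Real.log_nonneg (by exact_mod_cast hpos)
  have h5 : (0 : ℝ) ≤ kS a0 k := Nat.cast_nonneg _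
  calc (k : ℝ) ≤ kS a0 k * (Real.log (aS a0 k) - Real.log (aS a0 0)) := h1
    _ ≤ kS a0 k * Real.log (aS a0 k) := mul_le_mul_of_nonneg_left (by linarith) h5
    _ ≤ 5 * w (aS a0 k) * Real.log (aS a0 k) := mul_le_mul_of_nonneg_right h2 h4
    _ = 5 * (w (aS a0 k) * Real.log (aS a0 k)) := by ring

lemma rep_bound {f : ℕ → ℕ} (H : ∀ a, a0 ≤ a → Cond (1 - ρ) c s0 a) (hρ0 : 0 ≤ ρ)
    (tw : Tow (aS a0) (uS a0) (eS (1 - ρ) a0) (tS (1 - ρ) a0) (kS a0) f) (k : ℕ) :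
    ((4096 ^ 2 * 2592 * fS ρ c a0 k
      + 2 * (4096 * (tS (1 - ρ) a0 k * (1 + k * (4096 * (8 * kS a0 k))))) : ℕ) : ℝ)
      ≤ (4096 ^ 2 * 2592 * 2 ^ (2 * c + 6) + 16384 * 1638401)
        * (((aS a0 k : ℕ) : ℝ) ^ ρ * w (aS a0 k) ^ (2 * c + 12)) := by
  have h1 := one_le_rpow H hρ0 k
  have hf := fS_le H hρ0 k
  have ht := tS_le H hρ0 k
  have hκ := kS_le (a0 := a0) k
  have hk := index_le H tw k
  have hpos := (H (aS a0 k) (a0_le a0 k)).pos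
  have hlog := log_le_two_w (x := (aS a0 k : ℝ)) (by exact_mod_cast hpos)
  have hw1 := one_le_w (aS a0 k)
  have hlog0 : 0 ≤ Real.log (aS a0 k) := Real.log_nonneg (by exact_mod_cast hpos)
  set x : ℝ := ((aS a0 k : ℕ) : ℝ)
  set W : ℝ := w x
  have hk2 : (k : ℝ) ≤ 10 * W ^ 2 := by nlinarith
  have hW0 : 0 < W := by linarith
  have hmul : (k : ℝ) * (4096 * (8 * (kS a0 k : ℝ))) ≤ 1638400 * W ^ 3 := by
    calc (k : ℝ) * (4096 * (8 * (kS a0 k : ℝ))) ≤ (10 * W ^ 2) * (4096 * (8 * (5 * W))) := by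
          apply mul_le_mul hk2 (by linarith) (by positivity) (by positivity)
      _ = 1638400 * W ^ 3 := by ring
  have hone : 1 + (k : ℝ) * (4096 * (8 * (kS a0 k : ℝ))) ≤ 1638401 * W ^ 3 := by
    have : 1 ≤ W ^ 3 := one_le_pow₀ hw1
    linarith
  have hprod : (tS (1 - ρ) a0 k : ℝ) * (1 + (k : ℝ) * (4096 * (8 * (kS a0 k : ℝ))))
      ≤ 2 * (x ^ ρ * W ^ 4) * (1638401 * W ^ 3) := by
    apply mul_le_mul ht hone (by positivity) (by positivity)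
  have hA : x ^ ρ * W ^ (2 * c + 5) ≤ x ^ ρ * W ^ (2 * c + 12) :=
    mul_le_mul_of_nonneg_left (pow_le_pow_right₀ hw1 (by omega)) (by linarith)
  have hB : x ^ ρ * W ^ 7 ≤ x ^ ρ * W ^ (2 * c + 12) :=
    mul_le_mul_of_nonneg_left (pow_le_pow_right₀ hw1 (by omega)) (by linarith)
  push_cast
  have h2c : (0 : ℝ) ≤ 2 ^ (2 * c + 6) := by positivity
  have hfin1 : (fS ρ c a0 k : ℝ) ≤ 2 ^ (2 * c + 6) * (x ^ ρ * W ^ (2 * c + 12)) :=
    hf.trans (mul_le_mul_of_nonneg_left hA h2c)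
  have hfin2 : (tS (1 - ρ) a0 k : ℝ) * (1 + (k : ℝ) * (4096 * (8 * (kS a0 k : ℝ))))
      ≤ 2 * 1638401 * (x ^ ρ * W ^ (2 * c + 12)) := by
    calc _ ≤ 2 * (x ^ ρ * W ^ 4) * (1638401 * W ^ 3) := hprod
      _ = 2 * 1638401 * (x ^ ρ * W ^ 7) := by ring
      _ ≤ _ := by linarith
  linarith

lemma bad_le (H : ∀ a, a0 ≤ a → Cond (1 - ρ) c s0 a) (hρ0 : 0 ≤ ρ) (k : ℕ) :
    ((laT (uS a0) k * 2 ^ (c * sS a0 k) / RS ρ c a0 k : ℕ) : ℝ) ≤ Phi (1 - ρ) (aS a0 k) := by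
  have h1 := one_le_rpow H hρ0 k
  have hc := H (aS a0 k) (a0_le a0 k)
  have hpos := hc.pos
  have hx0 : (0 : ℝ) < ((aS a0 k : ℕ) : ℝ) := by exact_mod_cast hpos
  have hla : ((laT (uS a0) k : ℕ) : ℝ) ≤ ((aS a0 k : ℕ) : ℝ) := by
    exact_mod_cast laT_le H (by linarith) k
  have hw4 := w_pow_four_le (a := aS a0 k) (by omega)
  have hw40 : 0 < w (aS a0 k) ^ 4 := pow_pos (w_pos _) 4
  have hceil : ((aS a0 k : ℕ) : ℝ) ^ ρ ≤ (⌈((aS a0 k : ℕ) : ℝ) ^ ρ⌉₊ : ℝ) := Nat.le_ceil _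
  refine (Nat.cast_div_le).trans ?_
  have hR : ((RS ρ c a0 k : ℕ) : ℝ) = (⌈((aS a0 k : ℕ) : ℝ) ^ ρ⌉₊ : ℝ)
      * ((2 : ℝ) ^ (5 * sS a0 k) * 2 ^ (c * sS a0 k)) := by
    unfold RS
    push_cast
    rw [← pow_add]
    congr 2
    ring
  have hR0 : 0 < ((RS ρ c a0 k : ℕ) : ℝ) := by
    rw [hR]
    have : 0 < (⌈((aS a0 k : ℕ) : ℝ) ^ ρ⌉₊ : ℝ) := by linarith
    positivity
  have h3 : ((aS a0 k : ℕ) : ℝ) = ((aS a0 k : ℕ) : ℝ) ^ ρ * ((aS a0 k : ℕ) : ℝ) ^ (1 - ρ) := by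
    rw [← Real.rpow_add hx0]
    norm_num
  have hrp : 0 < ((aS a0 k : ℕ) : ℝ) ^ (1 - ρ) := Real.rpow_pos_of_pos hx0 _
  unfold Phi
  rw [div_le_div_iff₀ hR0 hw40]
  push_cast
  have h4 : w (aS a0 k) ^ 4 ≤ (2 : ℝ) ^ (5 * sS a0 k) := hw4
  calc ((laT (uS a0) k : ℕ) : ℝ) * 2 ^ (c * sS a0 k) * w (aS a0 k) ^ 4
      ≤ ((aS a0 k : ℕ) : ℝ) * 2 ^ (c * sS a0 k) * 2 ^ (5 * sS a0 k) := by
        apply mul_le_mul (mul_le_mul_of_nonneg_right hla (by positivity)) h4 hw40.le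
          (by positivity)
    _ = ((aS a0 k : ℕ) : ℝ) ^ (1 - ρ) * (((aS a0 k : ℕ) : ℝ) ^ ρ
          * ((2 : ℝ) ^ (5 * sS a0 k) * 2 ^ (c * sS a0 k))) := by
        calc ((aS a0 k : ℕ) : ℝ) * 2 ^ (c * sS a0 k) * 2 ^ (5 * sS a0 k)
            = (((aS a0 k : ℕ) : ℝ) ^ ρ * ((aS a0 k : ℕ) : ℝ) ^ (1 - ρ))
                * 2 ^ (c * sS a0 k) * 2 ^ (5 * sS a0 k) := by rw [← h3]
          _ = _ := by ring
    _ ≤ ((aS a0 k : ℕ) : ℝ) ^ (1 - ρ) * ((⌈((aS a0 k : ℕ) : ℝ) ^ ρ⌉₊ : ℝ)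
          * ((2 : ℝ) ^ (5 * sS a0 k) * 2 ^ (c * sS a0 k))) := by
        apply mul_le_mul_of_nonneg_left _ hrp.le
        exact mul_le_mul_of_nonneg_right hceil (by positivity)
    _ = ((aS a0 k : ℕ) : ℝ) ^ (1 - ρ) * ((RS ρ c a0 k : ℕ) : ℝ) := by rw [hR]

lemma eS_succ_le (H : ∀ a, a0 ≤ a → Cond p c s0 a) (hp1 : p ≤ 1) (k : ℕ) :
    (eS p a0 (k + 1) : ℝ) ≤ 2 * Phi p (aS a0 k) + 1 := by
  have hc := H (aS a0 k) (a0_le a0 k)
  have hx0 : (0 : ℝ) < ((aS a0 k : ℕ) : ℝ) := by exact_mod_cast hc.pos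
  have hc1 := H (aS a0 (k + 1)) (a0_le a0 (k + 1))
  have hy0 : (0 : ℝ) < ((aS a0 (k + 1) : ℕ) : ℝ) := by exact_mod_cast hc1.pos
  have h1 : (eS p a0 (k + 1) : ℝ) ≤ Phi p (aS a0 (k + 1)) + 1 :=
    (Nat.ceil_lt_add_one (Phi_nonneg hy0.le)).le
  have hle : ((aS a0 k : ℕ) : ℝ) ≤ ((aS a0 (k + 1) : ℕ) : ℝ) := by
    exact_mod_cast aS_mono a0 (Nat.le_succ k)
  have h2 := Phi_ratio hp1 hx0 hle
  have h3 : ((aS a0 (k + 1) : ℕ) : ℝ) / ((aS a0 k : ℕ) : ℝ) ≤ 2 := by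
    rw [div_le_iff₀ hx0]
    have h4 := (facts H hp1 k).2.1
    have h5 : aS a0 (k + 1) = aS a0 k + uS a0 k := rfl
    have h6 : aS a0 (k + 1) ≤ 2 * aS a0 k := by omega
    exact_mod_cast h6
  have h7 : 0 ≤ Phi p (aS a0 k) := Phi_nonneg hx0.le
  have h8 := mul_le_mul_of_nonneg_right h3 h7
  linarith

lemma le_aS (H : ∀ a, a0 ≤ a → Cond p c s0 a) (k : ℕ) : k ≤ aS a0 k := by
  induction k with
  | zero => omega
  | succ k ih =>
    have hc := H (aS a0 k) (a0_le a0 k)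
    have h1 : 1 ≤ uS a0 k := by
      apply Nat.le_floor
      have := hc.hPsi
      push_cast
      linarith
    have h5 : aS a0 (k + 1) = aS a0 k + uS a0 k := rfl
    omega

/-- The infinite theorem; `htower` is the statement of `tower`, `hfinite` the one of
`finite_thm`. -/
theorem infinite_of
    (htower : ∀ a u e t κ f : ℕ → ℕ, Tow a u e t κ f → ∀ T : ℕ → Finset ℕ,
      (∀ k, ∀ x ∈ T k, x < 2 ^ laT u k) → (∀ k n, repF (T k) n ≤ f k) →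
      ∃ A : Set ℕ, (∀ n, n < 2 ^ (4 * a 0 + thT u e 0) → rep A n = 0) ∧
        (∀ k n, 2 ^ (4 * a k + thT u e k) ≤ n → n < 2 ^ (4 * a (k + 1) + thT u e (k + 1)) →
          rep A n ≤ 4096 ^ 2 * 2592 * f k + 2 * (4096 * (t k * (1 + k * (4096 * (8 * κ k)))))) ∧
        (∀ k j, 4 * a k + thT u e k + 8 ≤ j → j + 1 ≤ 4 * a k + laT u k →
          (∀ i, i ≤ 5 → CovBlock (T k : Set ℕ) (j - 4 * a k - i)) → CovBlock A j))
    (hfinite : ∃ c s0 : ℕ, ∀ s, s0 ≤ s → ∀ J R : ℕ, J ≤ 2 ^ (s ^ 2) → 2 ^ (c * s) ≤ R →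
      FinB J (R * 2 ^ (c * s)) (J * 2 ^ (c * s) / R))
    (ρ : ℝ) (hρ0 : 0 ≤ ρ) (hρ1 : ρ < 1) :
    ∃ A : Set ℕ, (∃ C : ℝ, ∀ l : ℕ, 2 ≤ l → ∀ n : ℕ, n < 2 ^ l →
      (rep A n : ℝ) ≤ C * (l : ℝ) ^ ρ * Real.exp (C * √(Real.log l))) ∧
      ∀ᶠ J : ℕ in atTop, (badCount A J : ℝ) ≤ (J : ℝ) ^ (1 - ρ) * Real.exp (-√(Real.log J)) := by
  obtain ⟨c, s0, hfin⟩ := hfinite
  have hp0 : 0 < 1 - ρ := by linarith
  have hp1 : 1 - ρ ≤ 1 := by linarith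
  obtain ⟨a0, H⟩ := eventually_atTop.1 (eventually_cond hp0 c s0)
  have tw : Tow (aS a0) (uS a0) (eS (1 - ρ) a0) (tS (1 - ρ) a0) (kS a0) (fS ρ c a0) :=
    tow H hp0 hp1 hρ1.le
  have hFin : ∀ k, FinB (laT (uS a0) k) (fS ρ c a0 k)
      (laT (uS a0) k * 2 ^ (c * sS a0 k) / RS ρ c a0 k) := by
    intro k
    apply hfin (sS a0 k) (H _ (a0_le a0 k)).hs
    · refine (laT_le H hp1 k).trans ?_
      have h1 : aS a0 k < 2 ^ (Nat.log 2 (aS a0 k) + 1) :=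
        Nat.lt_pow_succ_log_self (by norm_num) _
      refine h1.le.trans (Nat.pow_le_pow_right (by norm_num) ?_)
      exact Nat.lt_succ_sqrt' (Nat.log 2 (aS a0 k))
    · unfold RS
      have h1 : 1 ≤ ⌈((aS a0 k : ℕ) : ℝ) ^ ρ⌉₊ := by
        rw [Nat.one_le_ceil_iff]
        linarith [one_le_rpow H hρ0 k]
      calc 2 ^ (c * sS a0 k) ≤ 2 ^ ((c + 5) * sS a0 k) :=
            Nat.pow_le_pow_right (by norm_num) (Nat.mul_le_mul_right _ (by omega))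
        _ = 1 * 2 ^ ((c + 5) * sS a0 k) := (one_mul _).symm
        _ ≤ _ := Nat.mul_le_mul_right _ h1
  choose T hT1 hT2 hT3 using hFin
  obtain ⟨A, hA1, hA2, hA3⟩ := htower _ _ _ _ _ _ tw T hT1 hT2
  refine ⟨A, ?_, ?_⟩
  · -- the number of representations
    set C0 : ℝ := 4096 ^ 2 * 2592 * 2 ^ (2 * c + 6) + 16384 * 1638401 with hC0
    have hC0pos : 0 < C0 := by positivity
    refine ⟨max C0 ((2 * c + 12 : ℕ) : ℝ), ?_⟩
    set C : ℝ := max C0 ((2 * c + 12 : ℕ) : ℝ)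
    have hCpos : 0 < C := hC0pos.trans_le (le_max_left _ _)
    intro l hl n hn
    have hl0 : (0 : ℝ) < l := by
      have : 0 < l := by omega
      exact_mod_cast this
    have hrhs : 0 ≤ C * (l : ℝ) ^ ρ * Real.exp (C * √(Real.log l)) := by
      have := Real.rpow_nonneg hl0.le ρ
      positivity
    by_cases h0 : n < 2 ^ (4 * aS a0 0 + thT (uS a0) (eS (1 - ρ) a0) 0)
    · rw [hA1 n h0]
      simpa using hrhs
    · obtain ⟨k, -, h1, h2⟩ := exists_index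
        (fun k => 2 ^ (4 * aS a0 k + thT (uS a0) (eS (1 - ρ) a0) k)) n n (by omega) (by
          have h3 := le_aS H n
          have h4 : n < 2 ^ n := Nat.lt_two_pow_self
          exact h4.trans_le (Nat.pow_le_pow_right (by norm_num) (by omega)))
      have h3 := hA2 k n h1 h2
      have h4 : 4 * aS a0 k + thT (uS a0) (eS (1 - ρ) a0) k < l := by
        have h5 : 2 ^ (4 * aS a0 k + thT (uS a0) (eS (1 - ρ) a0) k) < 2 ^ l := h1.trans_lt hn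
        exact (Nat.pow_lt_pow_iff_right (by norm_num)).1 h5
      have h6 : (aS a0 k : ℝ) ≤ l := by
        have : aS a0 k ≤ l := by omega
        exact_mod_cast this
      have h7 : (rep A n : ℝ) ≤ ((4096 ^ 2 * 2592 * fS ρ c a0 k
          + 2 * (4096 * (tS (1 - ρ) a0 k * (1 + k * (4096 * (8 * kS a0 k))))) : ℕ) : ℝ) := by
        exact_mod_cast h3
      have h8 := rep_bound H hρ0 tw k
      have hc := H (aS a0 k) (a0_le a0 k)
      have hx0 : (0 : ℝ) < ((aS a0 k : ℕ) : ℝ) := by exact_mod_cast hc.pos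
      have h9 : ((aS a0 k : ℕ) : ℝ) ^ ρ ≤ (l : ℝ) ^ ρ := Real.rpow_le_rpow hx0.le h6 hρ0
      have h10 : w (aS a0 k) ^ (2 * c + 12) ≤ Real.exp (C * √(Real.log l)) := by
        unfold w
        rw [← Real.exp_nat_mul]
        apply Real.exp_le_exp.2
        have h11 : √(Real.log (aS a0 k)) ≤ √(Real.log l) :=
          Real.sqrt_le_sqrt (Real.log_le_log hx0 h6)
        exact mul_le_mul (le_max_right _ _) h11 (Real.sqrt_nonneg _) hCpos.le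
      have hl1 := Real.rpow_nonneg hl0.le ρ
      calc (rep A n : ℝ) ≤ C0 * (((aS a0 k : ℕ) : ℝ) ^ ρ * w (aS a0 k) ^ (2 * c + 12)) :=
            h7.trans h8
        _ ≤ C * ((l : ℝ) ^ ρ * Real.exp (C * √(Real.log l))) := by
            apply mul_le_mul (le_max_left _ _) _ (by have := w_pos (aS a0 k); positivity) hCpos.le
            exact mul_le_mul h9 h10 (pow_nonneg (w_pos _).le _) hl1
        _ = C * (l : ℝ) ^ ρ * Real.exp (C * √(Real.log l)) := by ring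
  · -- the exceptional blocks
    have hcast : Tendsto (fun a : ℕ => (a : ℝ)) atTop atTop := tendsto_natCast_atTop_atTop
    have hev := hcast.eventually (final_ineq hp0
      ((4 * aS a0 0 + thT (uS a0) (eS (1 - ρ) a0) 0 + 8 : ℕ) : ℝ) 810 (by norm_num))
    filter_upwards [hev, eventually_ge_atTop (4 * aS a0 0 + 1)] with J hJ hJ1
    have hex : ∃ N, J ≤ 4 * aS a0 N := ⟨J, by have := le_aS H J; omega⟩
    classical
    set N := Nat.find hex with hN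
    have hN1 : J ≤ 4 * aS a0 N := Nat.find_spec hex
    have hNpos : N ≠ 0 := by
      intro h
      rw [h] at hN1
      omega
    obtain ⟨K, hK⟩ := Nat.exists_eq_succ_of_ne_zero hNpos
    have hK1 : 4 * aS a0 K < J := by
      have := Nat.find_min hex (m := K) (by omega)
      omega
    have hbd := bad_bound tw T A (fun k => laT (uS a0) k * 2 ^ (c * sS a0 k) / RS ρ c a0 k)
      hT3 hA3 J N hN1
    have haK0 : (0 : ℝ) < ((aS a0 K : ℕ) : ℝ) := by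
      exact_mod_cast (H (aS a0 K) (a0_le a0 K)).pos
    have hKJ : ((aS a0 K : ℕ) : ℝ) ≤ (J : ℝ) := by
      have : aS a0 K ≤ J := by omega
      exact_mod_cast this
    have hJa : a0 ≤ J := by
      have := a0_le a0 0
      omega
    have hcJ := H J hJa
    have hPhiJ := hcJ.hPhi
    have hterm : ∀ k ∈ range N, ((64 * eS (1 - ρ) a0 (k + 1) + 13
        + 6 * (laT (uS a0) k * 2 ^ (c * sS a0 k) / RS ρ c a0 k) : ℕ) : ℝ)
        ≤ 135 * Phi (1 - ρ) J := by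
      intro k hk
      rw [mem_range] at hk
      have hkK : aS a0 k ≤ aS a0 K := aS_mono a0 (by omega)
      have hkJ : ((aS a0 k : ℕ) : ℝ) ≤ (J : ℝ) := by
        have : aS a0 k ≤ J := by omega
        exact_mod_cast this
      have hck := H (aS a0 k) (a0_le a0 k)
      have hk0 : (0 : ℝ) < ((aS a0 k : ℕ) : ℝ) := by exact_mod_cast hck.pos
      have h1 := Phi_mono hp0 hk0 hck.four hkJ
      have h2 := eS_succ_le H hp1 k
      have h3 := bad_le H hρ0 k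
      rw [Nat.cast_add, Nat.cast_add, Nat.cast_mul, Nat.cast_mul]
      push_cast at h3 ⊢
      linarith
    have hsum : ((∑ k ∈ range N, (64 * eS (1 - ρ) a0 (k + 1) + 13
        + 6 * (laT (uS a0) k * 2 ^ (c * sS a0 k) / RS ρ c a0 k)) : ℕ) : ℝ)
        ≤ (N : ℝ) * (135 * Phi (1 - ρ) J) := by
      rw [Nat.cast_sum]
      have h1 := sum_le_card_nsmul (range N) _ _ hterm
      rw [card_range, nsmul_eq_mul] at h1
      exact h1
    have hNle : (N : ℝ) ≤ 6 * (w J * Real.log J) := by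
      have h1 := index_le H tw K
      have h2 : (N : ℝ) = K + 1 := by rw [hK]; push_cast; ring
      have h3 : w (aS a0 K) ≤ w J := w_mono haK0 hKJ
      have h4 : Real.log (aS a0 K) ≤ Real.log J := Real.log_le_log haK0 hKJ
      have h5 : 0 ≤ Real.log (aS a0 K) :=
        Real.log_nonneg (by exact_mod_cast (H (aS a0 K) (a0_le a0 K)).pos)
      have h6 : w (aS a0 K) * Real.log (aS a0 K) ≤ w J * Real.log J :=
        mul_le_mul h3 h4 h5 (w_pos _).le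
      have h7 : 1 ≤ Real.log J := by
        have h8 := hcJ.one
        by_contra h9
        push Not at h9
        have h10 : √(Real.log J) < 1 := by
          rw [Real.sqrt_lt' one_pos]
          simpa using h9
        linarith
      have h8 := one_le_w (J : ℝ)
      have h9 : 1 ≤ w J * Real.log J := by nlinarith
      rw [h2]
      linarith
    have hfinal : (badCount A J : ℝ)
        ≤ ((4 * aS a0 0 + thT (uS a0) (eS (1 - ρ) a0) 0 + 8 : ℕ) : ℝ)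
          + 810 * (w J * Real.log J) * Phi (1 - ρ) J := by
      have h1 : (badCount A J : ℝ) ≤ ((4 * aS a0 0 + thT (uS a0) (eS (1 - ρ) a0) 0 + 8 : ℕ) : ℝ)
          + ((∑ k ∈ range N, (64 * eS (1 - ρ) a0 (k + 1) + 13
            + 6 * (laT (uS a0) k * 2 ^ (c * sS a0 k) / RS ρ c a0 k)) : ℕ) : ℝ) := by
        exact_mod_cast hbd
      have h2 : (N : ℝ) * (135 * Phi (1 - ρ) J) ≤ 6 * (w J * Real.log J) * (135 * Phi (1 - ρ) J) :=
        mul_le_mul_of_nonneg_right hNle (by linarith)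
      linarith
    refine (hfinal.trans hJ).trans (le_of_eq ?_)
    unfold w
    rw [Real.exp_neg, div_eq_mul_inv]

end Pool.Agent.Helper63.WR2
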