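import Pool.Agent.Helper53.WR.St.Stubs3
import Pool.Agent.Helper63.WR2.Inf

/-!
# Project WR2: the infinite theorem from the stubs `tower` and `finite_thm`
-/

set_option autoImplicit false

namespace Pool.Agent.Helper63.WR2

open Filter Pool.Agent.Helper53.WR

theorem infinite_thm (ρ : ℝ) (hρ0 : 0 ≤ ρ) (hρ1 : ρ < 1) :
    ∃ A : Set ℕ, (∃ C : ℝ, ∀ l : ℕ, 2 ≤ l → ∀ n : ℕ, n < 2 ^ l →
      (rep A n : ℝ) ≤ C * (l : ℝ) ^ ρ * Real.exp (C * √(Real.log l))) ∧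
      ∀ᶠ J : ℕ in atTop, (badCount A J : ℝ) ≤ (J : ℝ) ^ (1 - ρ) * Real.exp (-√(Real.log J)) :=
  infinite_of (fun _ _ _ _ _ _ h T h1 h2 => St.tower h T h1 h2) St.finite_thm ρ hρ0 hρ1

end Pool.Agent.Helper63.WR2
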