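import Mathlib

/-!
# Project WR2: the functions `exp √(log x)`, `x / exp √(log x)`, `x ^ p / exp (4 √(log x))`
-/

set_option autoImplicit false

namespace Pool.Agent.Helper63.WR2

open Filter Asymptotics

noncomputable section

/-- `exp √(log x)`. -/
def w (x : ℝ) : ℝ := Real.exp (√(Real.log x))

/-- `x / exp √(log x)`. -/
def Psi (x : ℝ) : ℝ := x / w x

/-- `x ^ p / exp (4 √(log x))`. -/
def Phi (p x : ℝ) : ℝ := x ^ p / (w x) ^ 4

lemma w_pos (x : ℝ) : 0 < w x := Real.exp_pos _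

lemma one_le_w (x : ℝ) : 1 ≤ w x := Real.one_le_exp (Real.sqrt_nonneg _)

lemma w_mono {x y : ℝ} (hx : 0 < x) (h : x ≤ y) : w x ≤ w y :=
  Real.exp_le_exp.2 (Real.sqrt_le_sqrt (Real.log_le_log hx h))

lemma Phi_nonneg {p x : ℝ} (hx : 0 ≤ x) : 0 ≤ Phi p x :=
  div_nonneg (Real.rpow_nonneg hx _) (pow_nonneg (w_pos x).le _)

lemma Phi_eq {p x : ℝ} (hx : 0 < x) :
    Phi p x = Real.exp (p * Real.log x - 4 * √(Real.log x)) := by
  unfold Phi w
  rw [Real.rpow_def_of_pos hx, ← Real.exp_nat_mul, ← Real.exp_sub]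
  congr 1
  push_cast
  ring

lemma Psi_eq {x : ℝ} (hx : 0 < x) : Psi x = Real.exp (Real.log x - √(Real.log x)) := by
  unfold Psi w
  rw [Real.exp_sub, Real.exp_log hx]

lemma Phi_mono {p x y : ℝ} (hp : 0 < p) (hx : 0 < x) (h4 : 4 ≤ p * √(Real.log x)) (h : x ≤ y) :
    Phi p x ≤ Phi p y := by
  rw [Phi_eq hx, Phi_eq (hx.trans_le h)]
  apply Real.exp_le_exp.2
  have hsx : 0 < √(Real.log x) := by
    rcases (Real.sqrt_nonneg (Real.log x)).eq_or_lt with h0 | h0
    · rw [← h0] at h4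
      norm_num at h4
    · exact h0
  have hlx : 0 < Real.log x := Real.sqrt_pos.1 hsx
  have hl : Real.log x ≤ Real.log y := Real.log_le_log hx h
  have hs : √(Real.log x) ≤ √(Real.log y) := Real.sqrt_le_sqrt hl
  have e1 : Real.log x = √(Real.log x) * √(Real.log x) := (Real.mul_self_sqrt hlx.le).symm
  have e2 : Real.log y = √(Real.log y) * √(Real.log y) :=
    (Real.mul_self_sqrt (hlx.le.trans hl)).symm
  set a := √(Real.log x)
  set b := √(Real.log y)
  rw [e1, e2]
  have h1 : 0 ≤ p * a - 4 := by linarith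
  have h2 : p * a - 4 ≤ p * b - 4 := by nlinarith
  have h3 : a * (p * a - 4) ≤ b * (p * b - 4) := mul_le_mul hs h2 h1 (hsx.le.trans hs)
  nlinarith [h3]

lemma Psi_mono {x y : ℝ} (hx : 0 < x) (h1 : 1 ≤ √(Real.log x)) (h : x ≤ y) :
    Psi x ≤ Psi y := by
  rw [Psi_eq hx, Psi_eq (hx.trans_le h)]
  apply Real.exp_le_exp.2
  have hsx : 0 < √(Real.log x) := by linarith
  have hlx : 0 < Real.log x := Real.sqrt_pos.1 hsx
  have hl : Real.log x ≤ Real.log y := Real.log_le_log hx h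
  have hs : √(Real.log x) ≤ √(Real.log y) := Real.sqrt_le_sqrt hl
  have e1 : Real.log x = √(Real.log x) * √(Real.log x) := (Real.mul_self_sqrt hlx.le).symm
  have e2 : Real.log y = √(Real.log y) * √(Real.log y) :=
    (Real.mul_self_sqrt (hlx.le.trans hl)).symm
  set a := √(Real.log x)
  set b := √(Real.log y)
  rw [e1, e2]
  nlinarith

lemma Psi_ratio {x y : ℝ} (hx : 0 < x) (h : x ≤ y) : Psi y ≤ y / x * Psi x := by
  have hw := w_mono hx h
  have h1 : Psi y ≤ y / w x := by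
    unfold Psi
    exact div_le_div_of_nonneg_left (hx.trans_le h).le (w_pos x) hw
  calc Psi y ≤ y / w x := h1
    _ = y / x * Psi x := by
        unfold Psi
        field_simp

lemma Phi_ratio {p x y : ℝ} (hp : p ≤ 1) (hx : 0 < x) (h : x ≤ y) :
    Phi p y ≤ y / x * Phi p x := by
  have hw := w_mono hx h
  have hy : 0 < y := hx.trans_le h
  have h1 : Phi p y ≤ y ^ p / (w x) ^ 4 := by
    unfold Phi
    exact div_le_div_of_nonneg_left (Real.rpow_nonneg hy.le _) (pow_pos (w_pos x) _)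
      (pow_le_pow_left₀ (w_pos x).le hw 4)
  have h2 : y ^ p = (y / x) ^ p * x ^ p := by
    rw [← Real.mul_rpow (div_nonneg hy.le hx.le) hx.le]
    congr 1
    field_simp
  have h3 : (y / x) ^ p ≤ y / x := by
    have h4 : 1 ≤ y / x := by
      rw [le_div_iff₀ hx]
      linarith
    calc (y / x) ^ p ≤ (y / x) ^ (1 : ℝ) := Real.rpow_le_rpow_of_exponent_le h4 hp
      _ = y / x := Real.rpow_one _
  calc Phi p y ≤ y ^ p / (w x) ^ 4 := h1
    _ = (y / x) ^ p * (x ^ p / (w x) ^ 4) := by rw [h2, mul_div_assoc]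
    _ ≤ y / x * (x ^ p / (w x) ^ 4) :=
        mul_le_mul_of_nonneg_right h3
          (div_nonneg (Real.rpow_nonneg hx.le _) (pow_nonneg (w_pos x).le _))
    _ = y / x * Phi p x := rfl

lemma Phi_le_Psi {p x : ℝ} (hp : p ≤ 1) (hx : 1 ≤ x) : Phi p x ≤ Psi x / (w x) ^ 3 := by
  have h1 : x ^ p ≤ x := by
    calc x ^ p ≤ x ^ (1 : ℝ) := Real.rpow_le_rpow_of_exponent_le hx hp
      _ = x := Real.rpow_one _
  have hw := w_pos x
  unfold Phi Psi
  rw [div_div, ← pow_succ']
  exact div_le_div_of_nonneg_right h1 (pow_nonneg hw.le _)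

lemma log_le_two_w {x : ℝ} (hx : 1 ≤ x) : Real.log x ≤ 2 * w x := by
  have h := Real.quadratic_le_exp_of_nonneg (Real.sqrt_nonneg (Real.log x))
  have h2 : √(Real.log x) ^ 2 = Real.log x := Real.sq_sqrt (Real.log_nonneg hx)
  have h3 := Real.sqrt_nonneg (Real.log x)
  unfold w
  nlinarith

lemma tendsto_sqrt_log : Tendsto (fun x : ℝ => √(Real.log x)) atTop atTop :=
  Real.tendsto_sqrt_atTop.comp Real.tendsto_log_atTop

lemma tendsto_w : Tendsto w atTop atTop := Real.tendsto_exp_atTop.comp tendsto_sqrt_log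

lemma Phi_large {p : ℝ} (hp : 0 < p) (C : ℝ) :
    ∀ᶠ x : ℝ in atTop, C * (Real.log x + 1) ≤ Phi p x := by
  have h1 : ∀ᶠ x : ℝ in atTop, 8 / p ≤ √(Real.log x) := tendsto_sqrt_log.eventually_ge_atTop _
  have hlo : (fun x : ℝ => C * (Real.log x + 1)) =o[atTop] (fun x : ℝ => x ^ (p / 2)) := by
    have hA : (fun x : ℝ => Real.log x) =o[atTop] (fun x : ℝ => x ^ (p / 2)) :=
      isLittleO_log_rpow_atTop (by positivity)
    have hB : (fun _ : ℝ => (1 : ℝ)) =o[atTop] (fun x : ℝ => x ^ (p / 2)) := by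
      rw [isLittleO_const_left]
      right
      exact tendsto_norm_atTop_atTop.comp (tendsto_rpow_atTop (by positivity))
    exact (hA.add hB).const_mul_left C
  have h2 := hlo.bound (c := 1) one_pos
  filter_upwards [h1, h2, eventually_ge_atTop (1 : ℝ)] with x h1 h2 hx
  have hx0 : 0 < x := by linarith
  have h3 : C * (Real.log x + 1) ≤ x ^ (p / 2) := by
    have h4 : ‖x ^ (p / 2)‖ = x ^ (p / 2) := Real.norm_of_nonneg (Real.rpow_nonneg hx0.le _)
    rw [h4, one_mul] at h2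
    exact (le_abs_self _).trans h2
  refine h3.trans ?_
  rw [Phi_eq hx0, Real.rpow_def_of_pos hx0]
  apply Real.exp_le_exp.2
  have hl : 0 ≤ Real.log x := Real.log_nonneg hx
  have e1 : Real.log x = √(Real.log x) * √(Real.log x) := (Real.mul_self_sqrt hl).symm
  have hs := Real.sqrt_nonneg (Real.log x)
  set a := √(Real.log x)
  rw [e1]
  have h5 : 8 ≤ p * a := by
    rw [div_le_iff₀ hp] at h1
    linarith
  nlinarith

lemma Psi_large (C : ℝ) : ∀ᶠ x : ℝ in atTop, C ≤ Psi x := by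
  filter_upwards [Phi_large one_pos (max C 0), eventually_ge_atTop (1 : ℝ)] with x h1 hx
  have h2 : Phi 1 x ≤ Psi x / (w x) ^ 3 := Phi_le_Psi le_rfl hx
  have h3 : Psi x / (w x) ^ 3 ≤ Psi x := by
    apply div_le_self
    · exact div_nonneg (by linarith) (w_pos x).le
    · exact one_le_pow₀ (one_le_w x)
  have h4 : 0 ≤ Real.log x := Real.log_nonneg hx
  have h5 : C ≤ max C 0 * (Real.log x + 1) := by
    have := le_max_left C 0
    have := le_max_right C 0
    nlinarith
  linarith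

lemma final_ineq {p : ℝ} (hp : 0 < p) (C0 C1 : ℝ) (hC1 : 0 ≤ C1) :
    ∀ᶠ x : ℝ in atTop, C0 + C1 * (w x * Real.log x) * Phi p x ≤ x ^ p / w x := by
  filter_upwards [Phi_large hp (max (2 * C0) 0), eventually_ge_atTop (1 : ℝ),
    tendsto_w.eventually_ge_atTop (4 * C1)] with x h1 hx h2
  have hx0 : 0 < x := by linarith
  have hw := w_pos x
  have hw1 := one_le_w x
  have hl := log_le_two_w hx
  have hl0 : 0 ≤ Real.log x := Real.log_nonneg hx
  have hxp : 0 ≤ x ^ p := Real.rpow_nonneg hx0.le _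
  have h3 : 2 * C0 ≤ Phi p x := by
    refine le_trans ?_ h1
    have := le_max_left (2 * C0) 0
    have := le_max_right (2 * C0) 0
    nlinarith
  have h4 : Phi p x ≤ x ^ p / w x := by
    unfold Phi
    apply div_le_div_of_nonneg_left hxp hw
    calc w x = w x ^ 1 := (pow_one _).symm
      _ ≤ w x ^ 4 := pow_le_pow_right₀ hw1 (by norm_num)
  have h5 : C1 * (w x * Real.log x) * Phi p x ≤ (x ^ p / w x) / 2 := by
    have e : C1 * (w x * Real.log x) * Phi p x = C1 * Real.log x * x ^ p / (w x) ^ 3 := by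
      unfold Phi
      field_simp
    rw [e, div_div, div_le_div_iff₀ (pow_pos hw 3) (by positivity)]
    have h6 : C1 * Real.log x ≤ 2 * C1 * w x := by nlinarith
    have h7 : C1 * Real.log x * 2 ≤ (w x) ^ 2 := by nlinarith
    have h8 : C1 * Real.log x * x ^ p * (w x * 2) = (C1 * Real.log x * 2) * (x ^ p * w x) := by
      ring
    rw [h8]
    calc (C1 * Real.log x * 2) * (x ^ p * w x) ≤ (w x) ^ 2 * (x ^ p * w x) :=
          mul_le_mul_of_nonneg_right h7 (mul_nonneg hxp hw.le)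
      _ = x ^ p * w x ^ 3 := by ring
  linarith

end

end Pool.Agent.Helper63.WR2
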