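import Pool.Agent.Helper53.WR.Tower
import Pool.Agent.Helper48.WR.Finite
import Pool.Agent.Helper63.WR2.Inf

/-!
# Project WR2: main theorem
-/

set_option autoImplicit false

namespace Pool.Agent.Helper63.WR2

open Filter Pool.Agent.Helper53.WR

theorem infinite_main (ρ : ℝ) (hρ0 : 0 ≤ ρ) (hρ1 : ρ < 1) :
    ∃ A : Set ℕ, (∃ C : ℝ, ∀ l : ℕ, 2 ≤ l → ∀ n : ℕ, n < 2 ^ l →
      (rep A n : ℝ) ≤ C * (l : ℝ) ^ ρ * Real.exp (C * √(Real.log l))) ∧
      ∀ᶠ J : ℕ in atTop, (badCount A J : ℝ) ≤ (J : ℝ) ^ (1 - ρ) * Real.exp (-√(Real.log J)) :=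
  infinite_of (fun _ _ _ _ _ _ h T h1 h2 => Pool.Agent.Helper53.WR.tower h T h1 h2)
    Pool.Agent.Helper48.WR.finite_thm ρ hρ0 hρ1

/-- In terms of `log n`. -/
theorem infinite_log (ρ : ℝ) (hρ0 : 0 ≤ ρ) (hρ1 : ρ < 1) :
    ∃ A : Set ℕ, (∃ C : ℝ, ∀ᶠ n : ℕ in atTop,
      (rep A n : ℝ) ≤ (Real.log n) ^ ρ * Real.exp (C * √(Real.log (Real.log n)))) ∧
      ∀ᶠ J : ℕ in atTop, (badCount A J : ℝ) ≤ (J : ℝ) ^ (1 - ρ) * Real.exp (-√(Real.log J)) := by
  obtain ⟨A, ⟨C, hC⟩, hA⟩ := infinite_main ρ hρ0 hρ1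
  refine ⟨A, ⟨4 * (|C| + 1), ?_⟩, hA⟩
  have hll : Tendsto (fun n : ℕ => Real.log (Real.log n)) atTop atTop :=
    Real.tendsto_log_atTop.comp (Real.tendsto_log_atTop.comp tendsto_natCast_atTop_atTop)
  have hl : Tendsto (fun n : ℕ => Real.log n) atTop atTop :=
    Real.tendsto_log_atTop.comp tendsto_natCast_atTop_atTop
  filter_upwards [hll.eventually_ge_atTop 100, hl.eventually_ge_atTop 100,
    hll.eventually_ge_atTop (Real.log (3 * (|C| + 1)) ^ 2 + 1), eventually_ge_atTop 4]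
    with n h1 h2 h3 h4
  set l : ℕ := Nat.log 2 n + 1 with hldef
  have hn : n < 2 ^ l := Nat.lt_pow_succ_log_self (by norm_num) n
  have hl2 : 2 ≤ l := by
    have : 1 ≤ Nat.log 2 n := Nat.log_pos (by norm_num) (by omega)
    omega
  have hb := hC l hl2 n hn
  have hlog2 : (0.6931471803 : ℝ) < Real.log 2 := Real.log_two_gt_d9
  have hnl := natlog_mul_log (a := n) (by omega)
  have hl3 : (l : ℝ) ≤ 3 * Real.log n := by
    rw [hldef]
    push_cast
    have : (0 : ℝ) ≤ Nat.log 2 n := Nat.cast_nonneg _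
    nlinarith
  have hl0 : (0 : ℝ) < l := by
    have : 0 < l := by omega
    exact_mod_cast this
  set L : ℝ := Real.log n with hL
  have hL0 : 0 < L := by linarith
  set M : ℝ := Real.log L with hM
  have hM0 : 0 < M := by linarith
  -- powers
  have hp1 : (l : ℝ) ^ ρ ≤ 3 * L ^ ρ := by
    calc (l : ℝ) ^ ρ ≤ (3 * L) ^ ρ := Real.rpow_le_rpow hl0.le hl3 hρ0
      _ = 3 ^ ρ * L ^ ρ := Real.mul_rpow (by norm_num) hL0.le
      _ ≤ 3 ^ (1 : ℝ) * L ^ ρ :=
          mul_le_mul_of_nonneg_right (Real.rpow_le_rpow_of_exponent_le (by norm_num) hρ1.le)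
            (Real.rpow_nonneg hL0.le _)
      _ = 3 * L ^ ρ := by rw [Real.rpow_one]
  have hloglog : Real.log l ≤ 4 * M := by
    have h5 : Real.log l ≤ Real.log (3 * L) := Real.log_le_log hl0 hl3
    rw [Real.log_mul (by norm_num) hL0.ne'] at h5
    have h6 : Real.log 3 ≤ 3 := by
      have := Real.log_le_sub_one_of_pos (show (0 : ℝ) < 3 by norm_num)
      linarith
    linarith
  have hsq : √(Real.log l) ≤ 2 * √M := by
    calc √(Real.log l) ≤ √(4 * M) := Real.sqrt_le_sqrt hloglog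
      _ = 2 * √M := by
          rw [Real.sqrt_mul (by norm_num)]
          congr 1
          rw [show (4 : ℝ) = 2 ^ 2 by norm_num, Real.sqrt_sq (by norm_num)]
  have hsM : 0 ≤ √M := Real.sqrt_nonneg _
  have hCabs : C ≤ |C| := le_abs_self C
  have hCabs0 : 0 ≤ |C| := abs_nonneg C
  have hlp : 0 ≤ (l : ℝ) ^ ρ := Real.rpow_nonneg hl0.le _
  have hLp : 0 ≤ L ^ ρ := Real.rpow_nonneg hL0.le _
  have hexp1 : Real.exp (C * √(Real.log l)) ≤ Real.exp (2 * (|C| + 1) * √M) := by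
    apply Real.exp_le_exp.2
    have h7 : 0 ≤ √(Real.log l) := Real.sqrt_nonneg _
    calc C * √(Real.log l) ≤ (|C| + 1) * √(Real.log l) :=
          mul_le_mul_of_nonneg_right (by linarith) h7
      _ ≤ (|C| + 1) * (2 * √M) := mul_le_mul_of_nonneg_left hsq (by linarith)
      _ = 2 * (|C| + 1) * √M := by ring
  have hconst : 3 * (|C| + 1) ≤ Real.exp (2 * (|C| + 1) * √M) := by
    have h8 : Real.log (3 * (|C| + 1)) ≤ √M := by
      apply Real.le_sqrt_of_sq_le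
      linarith
    calc 3 * (|C| + 1) = Real.exp (Real.log (3 * (|C| + 1))) :=
          (Real.exp_log (by linarith)).symm
      _ ≤ Real.exp (2 * (|C| + 1) * √M) := by
          apply Real.exp_le_exp.2
          nlinarith
  calc (rep A n : ℝ) ≤ C * (l : ℝ) ^ ρ * Real.exp (C * √(Real.log l)) := hb
    _ ≤ (|C| + 1) * (3 * L ^ ρ) * Real.exp (2 * (|C| + 1) * √M) := by
        apply mul_le_mul _ hexp1 (Real.exp_pos _).le (by positivity)
        calc C * (l : ℝ) ^ ρ ≤ (|C| + 1) * (l : ℝ) ^ ρ :=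
              mul_le_mul_of_nonneg_right (by linarith) hlp
          _ ≤ (|C| + 1) * (3 * L ^ ρ) := mul_le_mul_of_nonneg_left hp1 (by linarith)
    _ = L ^ ρ * ((3 * (|C| + 1)) * Real.exp (2 * (|C| + 1) * √M)) := by ring
    _ ≤ L ^ ρ * (Real.exp (2 * (|C| + 1) * √M) * Real.exp (2 * (|C| + 1) * √M)) := by
        apply mul_le_mul_of_nonneg_left _ hLp
        exact mul_le_mul_of_nonneg_right hconst (Real.exp_pos _).le
    _ = L ^ ρ * Real.exp (4 * (|C| + 1) * √M) := by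
        rw [← Real.exp_add]
        congr 2
        ring

end Pool.Agent.Helper63.WR2
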