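import Pool.Agent.Helper53.WR.TowDefs
import Pool.Agent.Helper63.WR2.Fun

/-!
# Project WR2: the parameters of the worlds
-/

set_option autoImplicit false

namespace Pool.Agent.Helper63.WR2

open Filter Asymptotics Pool.Agent.Helper53.WR

noncomputable section

/-- The conditions that have to hold for all large numbers `a`. -/
structure Cond (p : ℝ) (c s0 : ℕ) (a : ℕ) : Prop where
  one : 1 ≤ √(Real.log a)
  four : 4 ≤ p * √(Real.log a)
  hw : 10000 ≤ w a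
  hPsi : 1000 ≤ Psi a
  hPhi : 300 ≤ Phi p a
  hlog : (((2 * c + 6) * (Nat.log 2 a + 1) + 1 : ℕ) : ℝ) ≤ Phi p a
  hs : s0 ≤ Nat.sqrt (Nat.log 2 a) + 1
  pos : 1 ≤ a

lemma natlog_mul_log {a : ℕ} (ha : a ≠ 0) : (Nat.log 2 a : ℝ) * Real.log 2 ≤ Real.log a := by
  have h1 : ((2 ^ Nat.log 2 a : ℕ) : ℝ) ≤ (a : ℝ) := by exact_mod_cast Nat.pow_log_le_self 2 ha
  have h2 : Real.log ((2 ^ Nat.log 2 a : ℕ) : ℝ) ≤ Real.log a :=
    Real.log_le_log (by positivity) h1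
  rw [Nat.cast_pow, Real.log_pow] at h2
  exact_mod_cast h2

lemma log_lt_natlog {a : ℕ} (ha : a ≠ 0) :
    Real.log a < ((Nat.log 2 a : ℝ) + 1) * Real.log 2 := by
  have h1 : (a : ℝ) < ((2 ^ (Nat.log 2 a + 1) : ℕ) : ℝ) := by
    exact_mod_cast Nat.lt_pow_succ_log_self (by norm_num) a
  have h0 : (0 : ℝ) < a := by exact_mod_cast Nat.pos_of_ne_zero ha
  have h2 : Real.log a < Real.log ((2 ^ (Nat.log 2 a + 1) : ℕ) : ℝ) :=
    Real.log_lt_log h0 h1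
  rw [Nat.cast_pow, Real.log_pow] at h2
  push_cast at h2
  exact h2

lemma eventually_cond {p : ℝ} (hp : 0 < p) (c s0 : ℕ) : ∀ᶠ a : ℕ in atTop, Cond p c s0 a := by
  have hcast : Tendsto (fun a : ℕ => (a : ℝ)) atTop atTop := tendsto_natCast_atTop_atTop
  have h1 := hcast.eventually (tendsto_sqrt_log.eventually_ge_atTop 1)
  have h2 := hcast.eventually (tendsto_sqrt_log.eventually_ge_atTop (4 / p))
  have h3 := hcast.eventually (tendsto_w.eventually_ge_atTop 10000)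
  have h4 := hcast.eventually (Psi_large 1000)
  have h5 := hcast.eventually (Phi_large hp 300)
  have h6 := hcast.eventually (Phi_large hp (2 * (2 * c + 7)))
  have h7 : ∀ᶠ a : ℕ in atTop, 2 ^ (s0 ^ 2) ≤ a := eventually_ge_atTop _
  filter_upwards [h1, h2, h3, h4, h5, h6, h7, eventually_ge_atTop 1] with a h1 h2 h3 h4 h5 h6 h7 h8
  have ha : a ≠ 0 := by omega
  have hla : 0 ≤ Real.log a := Real.log_nonneg (by exact_mod_cast h8)
  refine ⟨h1, ?_, h3, h4, ?_, ?_, ?_, h8⟩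
  · rw [div_le_iff₀ hp] at h2
    linarith
  · nlinarith
  · refine le_trans ?_ h6
    have h9 := natlog_mul_log ha
    have h10 : (0.6931471803 : ℝ) < Real.log 2 := Real.log_two_gt_d9
    have h11 : (Nat.log 2 a : ℝ) ≤ 2 * Real.log a := by
      have : (0 : ℝ) ≤ Nat.log 2 a := Nat.cast_nonneg _
      nlinarith
    have hc : (0 : ℝ) ≤ c := Nat.cast_nonneg _
    push_cast
    nlinarith [mul_nonneg hc hla]
  · have h9 : s0 ^ 2 ≤ Nat.log 2 a := by
      exact Nat.le_log_of_pow_le (by norm_num) h7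
    have h10 : s0 ≤ Nat.sqrt (Nat.log 2 a) := by
      rw [Nat.le_sqrt']
      exact h9
    omega

/-- Positions of the worlds. -/
def aS (a0 : ℕ) : ℕ → ℕ
  | 0 => a0
  | k + 1 => aS a0 k + ⌊Psi (aS a0 k)⌋₊

/-- Lengths of the worlds. -/
def uS (a0 k : ℕ) : ℕ := ⌊Psi (aS a0 k)⌋₊

/-- Gaps. -/
def eS (p : ℝ) (a0 k : ℕ) : ℕ := ⌈Phi p (aS a0 k)⌉₊

/-- The numbers `κ`. -/
def kS (a0 k : ℕ) : ℕ := ⌈4 * w (aS a0 k)⌉₊

/-- The numbers `t`. -/
def tS (p : ℝ) (a0 k : ℕ) : ℕ := aS a0 k / eS p a0 k + 1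

/-- The numbers `s`. -/
def sS (a0 k : ℕ) : ℕ := Nat.sqrt (Nat.log 2 (aS a0 k)) + 1

/-- The numbers `R`. -/
def RS (ρ : ℝ) (c a0 k : ℕ) : ℕ := ⌈((aS a0 k : ℕ) : ℝ) ^ ρ⌉₊ * 2 ^ ((c + 5) * sS a0 k)

/-- The numbers `f`. -/
def fS (ρ : ℝ) (c a0 k : ℕ) : ℕ := RS ρ c a0 k * 2 ^ (c * sS a0 k)

lemma aS_mono (a0 : ℕ) : Monotone (aS a0) :=
  monotone_nat_of_le_succ fun _ => Nat.le_add_right _ _

lemma a0_le (a0 k : ℕ) : a0 ≤ aS a0 k := aS_mono a0 (Nat.zero_le k)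

/-- `2 ^ sqrt (log2 a) ≤ w a`. -/
lemma two_pow_sqrt_le {a : ℕ} (ha : a ≠ 0) : (2 : ℝ) ^ Nat.sqrt (Nat.log 2 a) ≤ w a := by
  have h1 : (2 : ℝ) ^ Nat.sqrt (Nat.log 2 a)
      = Real.exp ((Nat.sqrt (Nat.log 2 a) : ℝ) * Real.log 2) := by
    rw [Real.exp_nat_mul, Real.exp_log (by norm_num)]
  rw [h1]
  unfold w
  apply Real.exp_le_exp.2
  apply Real.le_sqrt_of_sq_le
  have h2 := natlog_mul_log ha
  have h3 : ((Nat.sqrt (Nat.log 2 a) : ℝ)) ^ 2 ≤ (Nat.log 2 a : ℝ) := by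
    exact_mod_cast Nat.sqrt_le' _
  have h4 : Real.log 2 < 1 := by
    have := Real.log_two_lt_d9
    linarith
  have h5 : 0 < Real.log 2 := Real.log_pos (by norm_num)
  have h6 : (0 : ℝ) ≤ Nat.log 2 a := Nat.cast_nonneg _
  calc ((Nat.sqrt (Nat.log 2 a) : ℝ) * Real.log 2) ^ 2
      = ((Nat.sqrt (Nat.log 2 a) : ℝ)) ^ 2 * (Real.log 2 * Real.log 2) := by ring
    _ ≤ (Nat.log 2 a : ℝ) * (Real.log 2 * Real.log 2) :=
        mul_le_mul_of_nonneg_right h3 (by positivity)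
    _ ≤ (Nat.log 2 a : ℝ) * Real.log 2 := by
        apply mul_le_mul_of_nonneg_left _ h6
        nlinarith
    _ ≤ Real.log a := h2

/-- `w a ^ 4 ≤ 2 ^ (5 s)`. -/
lemma w_pow_four_le {a : ℕ} (ha : a ≠ 0) :
    w a ^ 4 ≤ (2 : ℝ) ^ (5 * (Nat.sqrt (Nat.log 2 a) + 1)) := by
  have h1 : (2 : ℝ) ^ (5 * (Nat.sqrt (Nat.log 2 a) + 1))
      = Real.exp (((5 * (Nat.sqrt (Nat.log 2 a) + 1) : ℕ) : ℝ) * Real.log 2) := by
    rw [Real.exp_nat_mul, Real.exp_log (by norm_num)]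
  rw [h1]
  unfold w
  rw [← Real.exp_nat_mul]
  apply Real.exp_le_exp.2
  have h2 := log_lt_natlog ha
  have h3 : ((Nat.log 2 a : ℝ)) + 1 ≤ ((Nat.sqrt (Nat.log 2 a) : ℝ) + 1) ^ 2 := by
    have := Nat.lt_succ_sqrt' (Nat.log 2 a)
    exact_mod_cast this
  have h4 : (0.6931471803 : ℝ) < Real.log 2 := Real.log_two_gt_d9
  have h4' : Real.log 2 < 0.6931471808 := Real.log_two_lt_d9
  have h5 : √(Real.log a) ≤ ((Nat.sqrt (Nat.log 2 a) : ℝ) + 1) * (5 / 4 * Real.log 2) := by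
    rw [Real.sqrt_le_left (by positivity)]
    calc Real.log a ≤ ((Nat.log 2 a : ℝ) + 1) * Real.log 2 := h2.le
      _ ≤ ((Nat.sqrt (Nat.log 2 a) : ℝ) + 1) ^ 2 * Real.log 2 :=
          mul_le_mul_of_nonneg_right h3 (by positivity)
      _ ≤ ((Nat.sqrt (Nat.log 2 a) : ℝ) + 1) ^ 2 * (5 / 4 * Real.log 2) ^ 2 := by
          apply mul_le_mul_of_nonneg_left _ (by positivity)
          nlinarith
      _ = (((Nat.sqrt (Nat.log 2 a) : ℝ) + 1) * (5 / 4 * Real.log 2)) ^ 2 := by ring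
  push_cast
  nlinarith

variable {p ρ : ℝ} {c s0 a0 : ℕ}

lemma facts (H : ∀ a, a0 ≤ a → Cond p c s0 a) (hp1 : p ≤ 1) (k : ℕ) :
    100 * eS p a0 k ≤ uS a0 k ∧ 100 * uS a0 k ≤ aS a0 k ∧ 6 * uS a0 (k + 1) ≤ 7 * uS a0 k ∧
      300 ≤ eS p a0 k := by
  have hc := H (aS a0 k) (a0_le a0 k)
  have hx1 : (1 : ℝ) ≤ (aS a0 k : ℝ) := by exact_mod_cast hc.pos
  have hx0 : (0 : ℝ) < (aS a0 k : ℝ) := by linarith
  have hw := hc.hw
  have hPsi := hc.hPsi
  have hu1 : (uS a0 k : ℝ) ≤ Psi (aS a0 k) := Nat.floor_le (by linarith)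
  have hu2 : Psi (aS a0 k) < (uS a0 k : ℝ) + 1 := Nat.lt_floor_add_one _
  have he1 : Phi p (aS a0 k) ≤ (eS p a0 k : ℝ) := Nat.le_ceil _
  have he2 : (eS p a0 k : ℝ) < Phi p (aS a0 k) + 1 := Nat.ceil_lt_add_one (Phi_nonneg hx0.le)
  have hua : 100 * (uS a0 k : ℝ) ≤ (aS a0 k : ℝ) := by
    have h1 : Psi (aS a0 k) ≤ (aS a0 k : ℝ) / 10000 := by
      unfold Psi
      exact div_le_div_of_nonneg_left hx0.le (by norm_num) hw
    linarith
  refine ⟨?_, ?_, ?_, ?_⟩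
  · have h1 : Phi p (aS a0 k) ≤ Psi (aS a0 k) / 1000 := by
      refine (Phi_le_Psi hp1 hx1).trans ?_
      apply div_le_div_of_nonneg_left (by linarith) (by norm_num)
      have : (w (aS a0 k)) ^ 3 ≥ (w (aS a0 k)) ^ 1 :=
        pow_le_pow_right₀ (one_le_w _) (by norm_num)
      rw [pow_one] at this
      linarith
    have h2 : (100 * eS p a0 k : ℝ) ≤ (uS a0 k : ℝ) := by linarith
    exact_mod_cast h2
  · exact_mod_cast hua
  · have h1 : ((aS a0 (k + 1) : ℕ) : ℝ) = (aS a0 k : ℝ) + (uS a0 k : ℝ) := by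
      have : aS a0 (k + 1) = aS a0 k + uS a0 k := rfl
      rw [this]
      push_cast
      ring
    have h2 : (aS a0 k : ℝ) ≤ (aS a0 (k + 1) : ℝ) := by exact_mod_cast aS_mono a0 (Nat.le_succ k)
    have h3 := Psi_ratio hx0 h2
    have h4 : (aS a0 (k + 1) : ℝ) / (aS a0 k : ℝ) ≤ 101 / 100 := by
      rw [div_le_iff₀ hx0, h1]
      linarith
    have h5 : (uS a0 (k + 1) : ℝ) ≤ Psi (aS a0 (k + 1)) := by
      apply Nat.floor_le
      exact div_nonneg (by linarith) (w_pos _).le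
    have h6 : Psi (aS a0 (k + 1)) ≤ 101 / 100 * Psi (aS a0 k) :=
      h3.trans (mul_le_mul_of_nonneg_right h4 (by linarith))
    have h7 : (6 * uS a0 (k + 1) : ℝ) ≤ 7 * (uS a0 k : ℝ) := by linarith
    exact_mod_cast h7
  · have h1 := hc.hPhi
    have h2 : (300 : ℝ) ≤ (eS p a0 k : ℝ) := by linarith
    exact_mod_cast h2

lemma sS_log_bound (a : ℕ) : Nat.sqrt (Nat.log 2 a) + 1 ≤ Nat.log 2 a + 1 := by
  have := Nat.sqrt_le_self (Nat.log 2 a)
  omega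

lemma ceil_rpow_le (hρ1 : ρ ≤ 1) {a : ℕ} (ha : 1 ≤ a) :
    ⌈((a : ℕ) : ℝ) ^ ρ⌉₊ ≤ a := by
  apply Nat.ceil_le.2
  have h1 : (1 : ℝ) ≤ a := by exact_mod_cast ha
  calc ((a : ℕ) : ℝ) ^ ρ ≤ ((a : ℕ) : ℝ) ^ (1 : ℝ) := Real.rpow_le_rpow_of_exponent_le h1 hρ1
    _ = a := Real.rpow_one _

theorem tow (H : ∀ a, a0 ≤ a → Cond p c s0 a) (hp0 : 0 < p) (hp1 : p ≤ 1)
    (hρ1 : ρ ≤ 1) : Tow (aS a0) (uS a0) (eS p a0) (tS p a0) (kS a0) (fS ρ c a0) := by
  have hcond : ∀ k, Cond p c s0 (aS a0 k) := fun k => H _ (a0_le a0 k)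
  have hpos : ∀ k, (0 : ℝ) < (aS a0 k : ℝ) := fun k => by
    have := (hcond k).pos
    exact_mod_cast this
  have hle : ∀ k, (aS a0 k : ℝ) ≤ (aS a0 (k + 1) : ℝ) := fun k => by
    exact_mod_cast aS_mono a0 (Nat.le_succ k)
  have hlogle : ∀ k, (2 * c + 6) * (Nat.log 2 (aS a0 k) + 1) + 1 ≤ eS p a0 k := fun k => by
    have h1 := (hcond k).hlog
    have h2 : Phi p (aS a0 k) ≤ (eS p a0 k : ℝ) := Nat.le_ceil _
    exact_mod_cast h1.trans h2
  refine ⟨fun k => rfl, fun k => (facts H hp1 k).2.2.2, fun k => (facts H hp1 k).1,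
    fun k => (facts H hp1 k).2.1, fun k => (facts H hp1 k).2.2.1, ?_, ?_, ?_, ?_, ?_, ?_, ?_⟩
  · intro k
    exact Nat.floor_le_floor (Psi_mono (hpos k) (hcond k).one (hle k))
  · intro k
    exact Nat.ceil_le_ceil (Phi_mono hp0 (hpos k) (hcond k).four (hle k))
  · intro k
    exact Nat.ceil_le_ceil (mul_le_mul_of_nonneg_left (w_mono (hpos k) (hle k)) (by norm_num))
  · intro k
    have h1 : aS a0 k < 2 ^ (Nat.log 2 (aS a0 k) + 1) :=
      Nat.lt_pow_succ_log_self (by norm_num) _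
    have h2 := hlogle k
    have h3 : 5 + (Nat.log 2 (aS a0 k) + 1) ≤ eS p a0 k := by
      have : 6 * (Nat.log 2 (aS a0 k) + 1) ≤ (2 * c + 6) * (Nat.log 2 (aS a0 k) + 1) :=
        Nat.mul_le_mul_right _ (by omega)
      omega
    calc 20 * aS a0 k ≤ 2 ^ 5 * 2 ^ (Nat.log 2 (aS a0 k) + 1) := by
          apply Nat.mul_le_mul (by norm_num) h1.le
      _ = 2 ^ (5 + (Nat.log 2 (aS a0 k) + 1)) := (pow_add _ _ _).symm
      _ ≤ 2 ^ eS p a0 k := Nat.pow_le_pow_right (by norm_num) h3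
  · intro k
    have h1 : aS a0 k < 2 ^ (Nat.log 2 (aS a0 k) + 1) :=
      Nat.lt_pow_succ_log_self (by norm_num) _
    have h2 := hlogle k
    have h3 := sS_log_bound (aS a0 k)
    have h4 : ⌈((aS a0 k : ℕ) : ℝ) ^ ρ⌉₊ ≤ 2 ^ (Nat.log 2 (aS a0 k) + 1) :=
      (ceil_rpow_le hρ1 (hcond k).pos).trans h1.le
    have h5 : (Nat.log 2 (aS a0 k) + 1) + (c + 5) * sS a0 k + c * sS a0 k ≤ eS p a0 k := by
      have h6 : (c + 5) * sS a0 k + c * sS a0 k ≤ (2 * c + 5) * (Nat.log 2 (aS a0 k) + 1) := by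
        calc (c + 5) * sS a0 k + c * sS a0 k = (2 * c + 5) * sS a0 k := by ring
          _ ≤ (2 * c + 5) * (Nat.log 2 (aS a0 k) + 1) := Nat.mul_le_mul_left _ h3
      have h7 : (2 * c + 6) * (Nat.log 2 (aS a0 k) + 1)
          = (2 * c + 5) * (Nat.log 2 (aS a0 k) + 1) + (Nat.log 2 (aS a0 k) + 1) := by ring
      omega
    calc fS ρ c a0 k
        ≤ 2 ^ (Nat.log 2 (aS a0 k) + 1) * 2 ^ ((c + 5) * sS a0 k) * 2 ^ (c * sS a0 k) := by
          unfold fS RS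
          gcongr
      _ = 2 ^ ((Nat.log 2 (aS a0 k) + 1) + (c + 5) * sS a0 k + c * sS a0 k) := by
          rw [← pow_add, ← pow_add]
      _ ≤ 2 ^ eS p a0 k := Nat.pow_le_pow_right (by norm_num) h5
  · intro k
    have h1 := (facts H hp1 k).2.2.2
    exact (Nat.lt_mul_div_succ (aS a0 k) (by omega : 0 < eS p a0 k)).le
  · intro k
    have hPsi := (hcond k).hPsi
    have h1 : Psi (aS a0 k) < (uS a0 k : ℝ) + 1 := Nat.lt_floor_add_one _
    have h2 : 4 * w (aS a0 k) ≤ (kS a0 k : ℝ) := Nat.le_ceil _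
    have h3 : Psi (aS a0 k) * w (aS a0 k) = (aS a0 k : ℝ) := by
      unfold Psi
      exact div_mul_cancel₀ _ (w_pos _).ne'
    have h4 : 3 / 4 * Psi (aS a0 k) ≤ (uS a0 k : ℝ) := by linarith
    have hw := w_pos (aS a0 k)
    have h5 : (3 * aS a0 k : ℝ) ≤ (uS a0 k : ℝ) * (kS a0 k : ℝ) := by
      calc (3 * aS a0 k : ℝ) = (3 / 4 * Psi (aS a0 k)) * (4 * w (aS a0 k)) := by
            linear_combination (-3) * h3
        _ ≤ (uS a0 k : ℝ) * (kS a0 k : ℝ) :=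
            mul_le_mul h4 h2 (by positivity) (Nat.cast_nonneg _)
    exact_mod_cast h5

/-- The number of worlds. -/
theorem count {a u e t κ f : ℕ → ℕ} (h : Tow a u e t κ f) (ha : 1 ≤ a 0) (k : ℕ) :
    (k : ℝ) ≤ κ k * (Real.log (a k) - Real.log (a 0)) := by
  have hmono : Monotone a := monotone_nat_of_le_succ fun k => by rw [h.step]; omega
  induction k with
  | zero => simp
  | succ k ih =>
    have hak : 1 ≤ a k := ha.trans (hmono (Nat.zero_le k))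
    have hak1 : 1 ≤ a (k + 1) := ha.trans (hmono (Nat.zero_le _))
    have x0 : (0 : ℝ) < a k := by exact_mod_cast hak
    have y0 : (0 : ℝ) < a (k + 1) := by exact_mod_cast hak1
    have h1 : (a (k + 1) : ℝ) = a k + u k := by rw [h.step]; push_cast; ring
    have h2 : (100 * u k : ℝ) ≤ a k := by exact_mod_cast h.ua k
    have h3 : (3 * a k : ℝ) ≤ u k * κ k := by exact_mod_cast h.hκ k
    have h4 : (κ k : ℝ) ≤ κ (k + 1) := by exact_mod_cast h.kk' k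
    have hu : (0 : ℝ) ≤ u k := Nat.cast_nonneg _
    have hκ : (0 : ℝ) ≤ κ k := Nat.cast_nonneg _
    have h5 : (u k : ℝ) / a (k + 1) ≤ Real.log (a (k + 1)) - Real.log (a k) := by
      rw [← Real.log_div y0.ne' x0.ne']
      have h6 := Real.one_sub_inv_le_log_of_pos (div_pos y0 x0)
      have h7 : (u k : ℝ) / a (k + 1) = 1 - ((a (k + 1) : ℝ) / a k)⁻¹ := by
        rw [inv_div]
        field_simp
        linarith
      rw [h7]
      exact h6
    have h8 : (1 : ℝ) ≤ κ k * ((u k : ℝ) / a (k + 1)) := by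
      rw [← mul_div_assoc, le_div_iff₀ y0]
      nlinarith
    have h9 : (1 : ℝ) ≤ κ (k + 1) * (Real.log (a (k + 1)) - Real.log (a k)) := by
      have h10 : 0 ≤ Real.log (a (k + 1)) - Real.log (a k) :=
        le_trans (by positivity) h5
      calc (1 : ℝ) ≤ κ k * ((u k : ℝ) / a (k + 1)) := h8
        _ ≤ κ k * (Real.log (a (k + 1)) - Real.log (a k)) := mul_le_mul_of_nonneg_left h5 hκ
        _ ≤ κ (k + 1) * (Real.log (a (k + 1)) - Real.log (a k)) :=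
            mul_le_mul_of_nonneg_right h4 h10
    have h11 : 0 ≤ Real.log (a k) - Real.log (a 0) := by
      have x00 : (0 : ℝ) < a 0 := by exact_mod_cast ha
      have : (a 0 : ℝ) ≤ a k := by exact_mod_cast hmono (Nat.zero_le k)
      have := Real.log_le_log x00 this
      linarith
    push_cast
    calc (k : ℝ) + 1 ≤ κ k * (Real.log (a k) - Real.log (a 0))
          + κ (k + 1) * (Real.log (a (k + 1)) - Real.log (a k)) := add_le_add ih h9
      _ ≤ κ (k + 1) * (Real.log (a k) - Real.log (a 0))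
          + κ (k + 1) * (Real.log (a (k + 1)) - Real.log (a k)) := by
          have := mul_le_mul_of_nonneg_right h4 h11
          linarith
      _ = κ (k + 1) * (Real.log (a (k + 1)) - Real.log (a 0)) := by ring

end

end Pool.Agent.Helper63.WR2
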